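import Pool.Agent.T2H38.MD.Phantoms

/-!
# Murre's conjecture (D) for all Chow-Kunneth decompositions and phantoms

`𝒱` is a class of smooth projective geometrically irreducible varieties over the field `k` closed
under products (for example all of them), `C` the Chow groups with rational coefficients (in the
form of their formal properties, `IsChowProj`) and `H` a Weil cohomology theory (`IsWeilProj`).
`SurfaceProperties H` records two classical facts: homologically trivial divisor classes on `X × Y`
are sums of pull-backs from the factors, and surfaces have Murre's Chow-Kunneth decomposition.

Let `X` be a surface or, more generally, a variety of surface type: its Chow motive is a direct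
summand of a sum of twists of motives of surfaces. It is known that some Chow-Kunneth decomposition
of a surface satisfies (D). The question asks for all of them. This holds for `X` if and only if
the phantoms of `X`, the homologically trivial idempotent correspondences, act as zero on the Chow
groups of `X`, and if and only if the filtration does not depend on the decomposition.
-/

open CategoryTheory AlgebraicGeometry

set_option autoImplicit false

universe u v w

namespace Pool.Agent.Results.MP_583472_ag.AllDecompositions

open Pool.Agent.H914 Pool.Agent.W492.BB Pool.Agent.TH133 Pool.Agent.X308.S

/-- For varieties of surface type, (D) for all Chow-Kunneth decompositions is equivalent to the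
independence of the filtration, and to the triviality of the action of phantoms on cycles. -/
theorem result {k : Type u} [Field k] {𝒱 : VarClass k} (C : TheoryData.{u, v, 0} 𝒱 ℚ)
    [IsChowProj C] {K : Type w} [Field K] (H : WeilTheoryData.{u, v, w} C K) [IsWeilProj H]
    (hS : SurfaceProperties H) (X : 𝒱.Obj) (hX : X.dim = 2 ∨ OfSurfaceType C X) :
    (MurreD H X ↔ PhantomsActTrivially H X) ∧ (MurreD H X ↔ MurreC H X) := by
  have hX' : OfSurfaceType C X := hX.elim (fun h => ofSurfaceType_of_dim (H := H) h) id
  have h := Pool.Agent.T2H38.MD.surface_tfae hS hX'
  exact ⟨h.out 3 4, h.out 3 2⟩

end Pool.Agent.Results.MP_583472_ag.AllDecompositions
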