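import Pool.Agent.T2H38.MD.Div

/-!
# Murre's conjecture (D) for cycles motivated by divisors

`𝒱` is a class of smooth projective geometrically irreducible varieties over the field `k` closed
under products (for example all of them), `C` the Chow groups with rational coefficients (in the
form of their formal properties, `IsChowProj`), `H` a Weil cohomology theory (`IsWeilProj`), with the
classical fact that correspondences acting as zero on `H^1` act as zero on `Pic^0 ⊗ ℚ`
(`PicardFaithful`).

Let the homologically trivial cycles of codimension `j` on `X` be motivated by divisors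
(`FromDivisors`): `x = ∑ b_s (a_s x)` where `a_s` maps `CH^j(X)` to `CH^1(Y_s)` and `b_s` maps
`CH^1(Y_s)` to `CH^j(X)`. This follows from a suitable decomposition of the diagonal
(`DiagonalDec`); for `j = 2` it holds, by the theorem of Bloch and Srinivas, if the zero-cycles on
`X` are supported on a curve, for instance if `X` is rationally connected. Then Murre's conjecture
(D) holds in codimension `j` for every Chow-Kunneth decomposition of `X`, without any hypothesis of
nilpotence. If this is so for `2 ≤ j ≤ dim X / 2` (for `dim X ≤ 5`: for `j = 2`), then (D) holds in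
all codimensions for every Chow-Kunneth decomposition which satisfies motivic hard Lefschetz.
-/

open CategoryTheory AlgebraicGeometry

set_option autoImplicit false

universe u v w

namespace Pool.Agent.Results.MP_583472_ag.CyclesFromDivisors

open Pool.Agent.H914 Pool.Agent.W492.BB Pool.Agent.TH133 Pool.Agent.Q73.LS
  Pool.Agent.T2H38.MD

/-- (D) in codimension `j`, for all Chow-Kunneth decompositions, if the homologically trivial cycles
of codimension `j` are motivated by divisors. -/
theorem result {k : Type u} [Field k] {𝒱 : VarClass k} (C : TheoryData.{u, v, 0} 𝒱 ℚ)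
    [IsChowProj C] {K : Type w} [Field K] (H : WeilTheoryData.{u, v, w} C K) [IsWeilProj H]
    (hP : PicardFaithful H) (X : 𝒱.Obj) :
    (∀ j : ℕ, FromDivisors H X j ∨ DiagonalDec C X j → ∀ π, IsCK H X π → DAt H π j) ∧
    ((∀ j : ℕ, 2 ≤ j → 2 * j ≤ X.dim → FromDivisors H X j ∨ DiagonalDec C X j) →
      ∀ π, IsCK H X π → HasLefschetz C π → ∀ j : ℕ, DAt H π j) := by
  have h1 : ∀ j : ℕ, FromDivisors H X j ∨ DiagonalDec C X j → ∀ π, IsCK H X π → DAt H π j := by
    intro j h π hπ
    rcases h with h | h
    · exact DAt.of_divisors hP h hπ
    · exact DAt.of_divisors hP (FromDivisors.of_dec h) hπ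
  exact ⟨h1, fun h π hπ hM => (murreD_lefschetz hP hπ hM).2 fun j h2 h3 => h1 j (h j h2 h3) π hπ⟩

end Pool.Agent.Results.MP_583472_ag.CyclesFromDivisors
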