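import Pool.Agent.T2H38.MD.Lef

/-!
# Murre's conjecture (D) under motivic hard Lefschetz

`𝒱` is a class of smooth projective geometrically irreducible varieties over the field `k` closed
under products (for example all of them), `C` the Chow groups with rational coefficients (in the
form of their formal properties, `IsChowProj`), `H` a Weil cohomology theory (`IsWeilProj`), with the
classical fact that correspondences acting as zero on `H^1` act as zero on `Pic^0 ⊗ ℚ`
(`PicardFaithful`).

Let `π` be a Chow-Kunneth decomposition of a variety `X` of dimension `d` which satisfies motivic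
hard Lefschetz for some correspondence of degree one (`HasLefschetz`). Then Murre's conjecture (D)
holds for `π` in the codimensions `j ≤ 1` and `j ≥ d - 1` (so in all codimensions if `d ≤ 3`), and
it holds in all codimensions if it holds for `2 ≤ j ≤ d / 2`.

If the homologically trivial self-correspondences of `X` of degree zero are nilpotent (Kimura: for
instance if the motive of `X` is finite-dimensional) and `X` satisfies the standard conjecture of
Lefschetz type, then every Chow-Kunneth decomposition of `X` satisfies motivic hard Lefschetz.
-/

open CategoryTheory AlgebraicGeometry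

set_option autoImplicit false

universe u v w

namespace Pool.Agent.Results.MP_583472_ag.LefschetzAndNilpotence

open Pool.Agent.H914 Pool.Agent.W492.BB Pool.Agent.TH133 Pool.Agent.Q73.LS
  Pool.Agent.T2H38.MD

/-- (D) in codimension `j ≤ 1` and `j ≥ dim X - 1` for decompositions with motivic hard Lefschetz,
in particular for all decompositions if `X` satisfies the standard conjecture of Lefschetz type and
has nilpotent homologically trivial correspondences; and reduction of (D) to `2 ≤ j ≤ dim X / 2`. -/
theorem result {k : Type u} [Field k] {𝒱 : VarClass k} (C : TheoryData.{u, v, 0} 𝒱 ℚ)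
    [IsChowProj C] {K : Type w} [Field K] (H : WeilTheoryData.{u, v, w} C K) [IsWeilProj H]
    (hP : PicardFaithful H) (X : 𝒱.Obj) (π : ℕ → C.A (X.prod X)) (hπ : IsCK H X π)
    (hM : HasLefschetz C π ∨ (NilHom H X ∧ ∃ L, LefschetzStandard H X L)) :
    (∀ j : ℕ, j ≤ 1 ∨ X.dim ≤ j + 1 → DAt H π j) ∧
    ((∀ j : ℕ, 2 ≤ j → 2 * j ≤ X.dim → DAt H π j) → ∀ j : ℕ, DAt H π j) := by
  rcases hM with hM | ⟨hN, L, hL⟩
  · exact murreD_lefschetz hP hπ hM
  · exact murreD_lefschetz hP hπ (hasLefschetz_of_nil hN hL hπ)

end Pool.Agent.Results.MP_583472_ag.LefschetzAndNilpotence
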