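import Pool.Agent.T2H38.MD.Squares

/-!
# Murre's conjecture (D): reduction to the middle codimension of squares and to middle motives

`𝒱` is a class of smooth projective geometrically irreducible varieties over the field `k` closed
under products (for example all of them), `C` the Chow groups with rational coefficients (in the
form of their formal properties, `IsChowProj`), `H` a Weil cohomology theory (`IsWeilProj`).

For Chow-Kunneth decompositions `π` of `X` and `ρ` of `Z` let `dualProd C π ρ` be the product of the
dual of `π` with `ρ`; it is a Chow-Kunneth decomposition of `X × Z` (first part of the theorem).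

1. (D) in codimension `n` for `X × Z` and this decomposition implies (D) in codimension `l` for `Z`
   and `ρ`, if `l ≤ n ≤ dim X + l`.
2. (D) in codimension `dim X` for `X × X` and this decomposition (with `ρ = π`) means that the
   homologically trivial correspondences of degree zero of `X` strictly lower the `π`-weights, and
   it implies (D) for `X` and `π` in all codimensions. In particular (D) for `X × X` implies (D) and
   (C) for `X`.
3. The following are equivalent: (D) for all varieties of the class (all decompositions, all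
   codimensions); (D) in the middle codimension for the squares `X × X` and the decompositions of 2;
   homologically trivial correspondences of degree zero strictly lower the weights, for all `X`;
   the first half of (B) holds for all `X` and homologically trivial correspondences have component
   zero in the endomorphism ring of the middle motive `h^d(X)`, for all `X`, `d = dim X`.
4. (D) in codimension `n` for all varieties of the class implies (D) in codimension `l` for all of
   them, for all `l ≤ n`.
-/

open CategoryTheory AlgebraicGeometry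

set_option autoImplicit false

universe u v w

namespace Pool.Agent.Results.MP_583472_ag.SquaresMiddleCodimension

open Pool.Agent.H914 Pool.Agent.W492.BB Pool.Agent.W550.Corr Pool.Agent.TH133
  Pool.Agent.Q73.LS Pool.Agent.T2H38.MD

/-- Murre's conjecture (D) in the middle codimension of squares implies (D) in general. -/
theorem result {k : Type u} [Field k] {𝒱 : VarClass k} (C : TheoryData.{u, v, 0} 𝒱 ℚ)
    [IsChowProj C] {K : Type w} [Field K] (H : WeilTheoryData.{u, v, w} C K) [IsWeilProj H] :
    (∀ (X Z : 𝒱.Obj) (π : ℕ → C.A (X.prod X)) (ρ : ℕ → C.A (Z.prod Z)), IsCK H X π →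
      IsCK H Z ρ → IsCK H (X.prod Z) (dualProd C π ρ) ∧ ∀ n l : ℕ, l ≤ n → n ≤ X.dim + l →
        DAt H (dualProd C π ρ) n → DAt H ρ l) ∧
    (∀ (X : 𝒱.Obj) (π : ℕ → C.A (X.prod X)), IsCK H X π →
      (DAt H (dualProd C π π) X.dim ↔ ∀ γ : C.A (X.prod X), C.Deg X.dim γ →
        H.cl γ = 0 → ∀ a b : ℕ, a ≤ b → C.comp (C.comp (π a) γ) (π b) = 0) ∧
      (DAt H (dualProd C π π) X.dim → ∀ l : ℕ, DAt H π l)) ∧
    (∀ X : 𝒱.Obj, MurreD H (X.prod X) → MurreD H X ∧ MurreC H X) ∧
    ((∀ X : 𝒱.Obj, MurreD H X) ↔
      ∀ (X : 𝒱.Obj) (π : ℕ → C.A (X.prod X)), IsCK H X π →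
        DAt H (dualProd C π π) X.dim) ∧
    ((∀ X : 𝒱.Obj, MurreD H X) ↔ ∀ X : 𝒱.Obj, StrictlyLowers H X) ∧
    ((∀ X : 𝒱.Obj, MurreD H X) ↔ (∀ X : 𝒱.Obj, MurreB0 H X) ∧
      ∀ (X : 𝒱.Obj) (π : ℕ → C.A (X.prod X)), IsCK H X π → ∀ γ : C.A (X.prod X),
        C.Deg X.dim γ → H.cl γ = 0 → C.comp (C.comp (π X.dim) γ) (π X.dim) = 0) ∧
    (∀ n : ℕ, (∀ (X : 𝒱.Obj) (π : ℕ → C.A (X.prod X)), IsCK H X π → DAt H π n) →
      ∀ l ≤ n, ∀ (X : 𝒱.Obj) (π : ℕ → C.A (X.prod X)), IsCK H X π → DAt H π l) := by
  refine ⟨fun X Z π ρ h h' => ⟨isCK_dualProd h h', fun n l hl hn hD => dAt_of_prod h h' hl hn hD⟩,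
    fun X π h => ⟨dAt_square_iff h, fun hD l => dAt_of_square h hD l⟩,
    murreD_murreC_of_square, ⟨?_, ?_⟩, murreD_iff, murreD_iff_middle,
    fun n hD l hl => dAt_mono hD hl⟩
  · exact fun hD X π h => fun x => hD (X.prod X) _ (h.dual.prod h) X.dim x
  · exact fun hD X π h i x => dAt_of_square h (hD X π h) i x

end Pool.Agent.Results.MP_583472_ag.SquaresMiddleCodimension
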